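import Mathlib

set_option autoImplicit false

open Set Filter Topology

namespace Pool.Agent.MP_3eafcc_gt

/-- The underlying set of a regular space with two points that no continuous real function
separates: vertices `v n s` in layers `n : ℤ`, edges `e n s t` between `v n s` and `v (n + 1) t`,
and two points at the ends. -/
inductive Y : Type
  | v : ℤ → ℝ → Y
  | e : ℤ → ℝ → ℝ → Y
  | pinf : Y
  | ninf : Y

namespace Y

instance : TopologicalSpace Y where
  IsOpen U := (∀ n s, v n s ∈ U → {t | e n s t ∉ U}.Finite ∧ {r | e (n - 1) r s ∉ U}.Finite) ∧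
    (pinf ∈ U → ∃ N : ℤ, ∀ n, N ≤ n → (∀ s, v n s ∈ U) ∧ ∀ s t, e n s t ∈ U) ∧
    (ninf ∈ U → ∃ N : ℤ, ∀ n, n ≤ N → (∀ s, v n s ∈ U) ∧ ∀ s t, e n s t ∈ U)
  isOpen_univ := by
    refine ⟨fun n s _ => ⟨?_, ?_⟩, fun _ => ⟨0, fun n _ => ⟨fun _ => trivial, fun _ _ => trivial⟩⟩,
      fun _ => ⟨0, fun n _ => ⟨fun _ => trivial, fun _ _ => trivial⟩⟩⟩ <;>
    · convert Set.finite_empty (α := ℝ)
      ext k
      simp
  isOpen_inter := by
    rintro A B ⟨hA1, hA2, hA3⟩ ⟨hB1, hB2, hB3⟩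
    refine ⟨fun n s h => ⟨?_, ?_⟩, fun h => ?_, fun h => ?_⟩
    · refine ((hA1 n s h.1).1.union (hB1 n s h.2).1).subset ?_
      intro k hk
      by_contra hcon
      rw [mem_union, not_or] at hcon
      exact hk ⟨not_not.1 hcon.1, not_not.1 hcon.2⟩
    · refine ((hA1 n s h.1).2.union (hB1 n s h.2).2).subset ?_
      intro k hk
      by_contra hcon
      rw [mem_union, not_or] at hcon
      exact hk ⟨not_not.1 hcon.1, not_not.1 hcon.2⟩
    · obtain ⟨N, hN⟩ := hA2 h.1
      obtain ⟨M, hM⟩ := hB2 h.2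
      refine ⟨max N M, fun n hn => ⟨fun s => ⟨?_, ?_⟩, fun s t => ⟨?_, ?_⟩⟩⟩
      · exact (hN n (le_trans (le_max_left _ _) hn)).1 s
      · exact (hM n (le_trans (le_max_right _ _) hn)).1 s
      · exact (hN n (le_trans (le_max_left _ _) hn)).2 s t
      · exact (hM n (le_trans (le_max_right _ _) hn)).2 s t
    · obtain ⟨N, hN⟩ := hA3 h.1
      obtain ⟨M, hM⟩ := hB3 h.2
      refine ⟨min N M, fun n hn => ⟨fun s => ⟨?_, ?_⟩, fun s t => ⟨?_, ?_⟩⟩⟩
      · exact (hN n (le_trans hn (min_le_left _ _))).1 s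
      · exact (hM n (le_trans hn (min_le_right _ _))).1 s
      · exact (hN n (le_trans hn (min_le_left _ _))).2 s t
      · exact (hM n (le_trans hn (min_le_right _ _))).2 s t
  isOpen_sUnion := by
    intro S hS
    refine ⟨fun n s h => ?_, fun h => ?_, fun h => ?_⟩
    · obtain ⟨A, hA, hm⟩ := h
      obtain ⟨h1, h2⟩ := (hS A hA).1 n s hm
      exact ⟨h1.subset fun k hk hkA => hk ⟨A, hA, hkA⟩, h2.subset fun k hk hkA => hk ⟨A, hA, hkA⟩⟩
    · obtain ⟨A, hA, hm⟩ := h
      obtain ⟨N, hN⟩ := (hS A hA).2.1 hm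
      exact ⟨N, fun n hn => ⟨fun s => ⟨A, hA, (hN n hn).1 s⟩, fun s t => ⟨A, hA, (hN n hn).2 s t⟩⟩⟩
    · obtain ⟨A, hA, hm⟩ := h
      obtain ⟨N, hN⟩ := (hS A hA).2.2 hm
      exact ⟨N, fun n hn => ⟨fun s => ⟨A, hA, (hN n hn).1 s⟩, fun s t => ⟨A, hA, (hN n hn).2 s t⟩⟩⟩

theorem isOpen_iff (U : Set Y) : IsOpen U ↔
    (∀ n s, v n s ∈ U → {t | e n s t ∉ U}.Finite ∧ {r | e (n - 1) r s ∉ U}.Finite) ∧
    (pinf ∈ U → ∃ N : ℤ, ∀ n, N ≤ n → (∀ s, v n s ∈ U) ∧ ∀ s t, e n s t ∈ U) ∧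
    (ninf ∈ U → ∃ N : ℤ, ∀ n, n ≤ N → (∀ s, v n s ∈ U) ∧ ∀ s t, e n s t ∈ U) := Iff.rfl

theorem fin_of_sub {p : ℝ → Prop} (a b : ℝ) (h : ∀ x, p x → x = a ∨ x = b) :
    {x | p x}.Finite :=
  (Set.toFinite {a, b}).subset fun x hx => by
    rcases h x hx with h | h <;> simp [h]

/-- open sets avoiding the two ends and all vertices but one -/
theorem isClosed_star (n : ℤ) (s : ℝ) (A B : Set ℝ) :
    IsClosed {y : Y | y = v n s ∨ (∃ t ∈ A, y = e n s t) ∨ ∃ r ∈ B, y = e (n - 1) r s} := by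
  rw [← isOpen_compl_iff, isOpen_iff]
  refine ⟨fun m q h => ⟨?_, ?_⟩, fun _ => ⟨n + 1, fun k hk => ⟨fun q hq => ?_, fun q t hq => ?_⟩⟩,
    fun _ => ⟨n - 2, fun k hk => ⟨fun q hq => ?_, fun q t hq => ?_⟩⟩⟩
  · -- edges `e m q t` in the star, with `v m q ≠ v n s`
    refine fin_of_sub s s fun t ht => ?_
    rcases not_not.1 ht with h1 | ⟨t', _, h1⟩ | ⟨r, _, h1⟩
    · exact absurd h1 (by simp)
    · obtain ⟨rfl, rfl, rfl⟩ := Y.e.inj h1
      exact absurd (Or.inl rfl) h
    · obtain ⟨h2, h3, h4⟩ := Y.e.inj h1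
      exact Or.inl h4
  · refine fin_of_sub s s fun r hr => ?_
    rcases not_not.1 hr with h1 | ⟨t', _, h1⟩ | ⟨r', _, h1⟩
    · exact absurd h1 (by simp)
    · obtain ⟨h2, h3, h4⟩ := Y.e.inj h1
      exact Or.inl h3
    · obtain ⟨h2, h3, h4⟩ := Y.e.inj h1
      have : m = n := by omega
      subst this
      subst h4
      exact absurd (Or.inl rfl) h
  · rcases hq with h1 | ⟨t', _, h1⟩ | ⟨r, _, h1⟩
    · obtain ⟨h2, h3⟩ := Y.v.inj h1
      omega
    · exact absurd h1 (by simp)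
    · exact absurd h1 (by simp)
  · rcases hq with h1 | ⟨t', _, h1⟩ | ⟨r, _, h1⟩
    · exact absurd h1 (by simp)
    · obtain ⟨h2, h3, h4⟩ := Y.e.inj h1
      omega
    · obtain ⟨h2, h3, h4⟩ := Y.e.inj h1
      omega
  · rcases hq with h1 | ⟨t', _, h1⟩ | ⟨r, _, h1⟩
    · obtain ⟨h2, h3⟩ := Y.v.inj h1
      omega
    · exact absurd h1 (by simp)
    · exact absurd h1 (by simp)
  · rcases hq with h1 | ⟨t', _, h1⟩ | ⟨r, _, h1⟩
    · exact absurd h1 (by simp)
    · obtain ⟨h2, h3, h4⟩ := Y.e.inj h1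
      omega
    · obtain ⟨h2, h3, h4⟩ := Y.e.inj h1
      omega

/-- upper part -/
def up (N M : ℤ) : Y → Prop
  | v n _ => N ≤ n
  | e n _ _ => M ≤ n
  | pinf => True
  | ninf => False

/-- lower part -/
def dn (N M : ℤ) : Y → Prop
  | v n _ => n ≤ N
  | e n _ _ => n ≤ M
  | pinf => False
  | ninf => True

theorem isOpen_up (N : ℤ) : IsOpen {y | up N (N - 1) y} := by
  rw [isOpen_iff]
  refine ⟨fun m q h => ⟨?_, ?_⟩, fun _ => ⟨N, fun k hk => ⟨fun q => hk, fun q t => ?_⟩⟩, fun h => ?_⟩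
  · have h' : N ≤ m := h
    refine fin_of_sub 0 0 fun t ht => absurd ?_ ht
    change N - 1 ≤ m
    omega
  · have h' : N ≤ m := h
    refine fin_of_sub 0 0 fun t ht => absurd ?_ ht
    change N - 1 ≤ m - 1
    omega
  · change N - 1 ≤ k
    omega
  · exact h.elim

theorem isOpen_dn (N : ℤ) : IsOpen {y | dn N N y} := by
  rw [isOpen_iff]
  refine ⟨fun m q h => ⟨?_, ?_⟩, fun h => ?_, fun _ => ⟨N, fun k hk => ⟨fun q => hk, fun q t => hk⟩⟩⟩
  · have h' : m ≤ N := h
    refine fin_of_sub 0 0 fun t ht => absurd ?_ ht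
    change m ≤ N
    omega
  · have h' : m ≤ N := h
    refine fin_of_sub 0 0 fun t ht => absurd ?_ ht
    change m - 1 ≤ N
    omega
  · exact h.elim

theorem isClosed_up (N : ℤ) : IsClosed {y | up N N y} := by
  rw [← isOpen_compl_iff]
  convert isOpen_dn (N - 1) using 1
  ext y
  cases y <;> simp [up, dn]

theorem isClosed_dn (N : ℤ) : IsClosed {y | dn N (N - 1) y} := by
  rw [← isOpen_compl_iff]
  convert isOpen_up (N + 1) using 1
  ext y
  cases y <;> simp [up, dn]

theorem isOpen_edge (n : ℤ) (s t : ℝ) : IsOpen ({e n s t} : Set Y) := by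
  rw [isOpen_iff]
  refine ⟨fun m q h => absurd h (by simp), fun h => absurd h (by simp), fun h => absurd h (by simp)⟩

theorem isClosed_edge (n : ℤ) (s t : ℝ) : IsClosed ({e n s t} : Set Y) := by
  rw [← isOpen_compl_iff, isOpen_iff]
  refine ⟨fun m q _ => ⟨?_, ?_⟩, fun _ => ⟨n + 1, fun k hk => ⟨fun q => by simp, fun q r hq => ?_⟩⟩,
    fun _ => ⟨n - 1, fun k hk => ⟨fun q => by simp, fun q r hq => ?_⟩⟩⟩
  · refine fin_of_sub t t fun x hx => Or.inl ?_
    exact (Y.e.inj (not_not.1 hx)).2.2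
  · refine fin_of_sub s s fun x hx => Or.inl ?_
    exact (Y.e.inj (not_not.1 hx)).2.1
  · have := (Y.e.inj hq).1
    omega
  · have := (Y.e.inj hq).1
    omega

instance : T1Space Y := by
  refine ⟨fun x => ?_⟩
  rcases x with ⟨n, s⟩ | ⟨n, s, t⟩ | _ | _
  · convert isClosed_star n s ∅ ∅ using 1
    ext y; simp
  · exact isClosed_edge n s t
  · have h : ({pinf} : Set Y) = ⋂ N : ℤ, {y | up N N y} := by
      ext y
      simp only [mem_singleton_iff, mem_iInter]
      constructor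
      · rintro rfl N
        trivial
      · intro h
        rcases y with ⟨n, s⟩ | ⟨n, s, t⟩ | _ | _
        · have : n + 1 ≤ n := h (n + 1)
          omega
        · have : n + 1 ≤ n := h (n + 1)
          omega
        · rfl
        · exact (h 0).elim
    rw [h]
    exact isClosed_iInter fun N => isClosed_up N
  · have h : ({ninf} : Set Y) = ⋂ N : ℤ, {y | dn N (N - 1) y} := by
      ext y
      simp only [mem_singleton_iff, mem_iInter]
      constructor
      · rintro rfl N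
        trivial
      · intro h
        rcases y with ⟨n, s⟩ | ⟨n, s, t⟩ | _ | _
        · have : n ≤ n - 1 := h (n - 1)
          omega
        · have : n ≤ n - 1 := h n
          omega
        · exact (h 0).elim
        · rfl
    rw [h]
    exact isClosed_iInter fun N => isClosed_dn N

instance : RegularSpace Y := by
  refine RegularSpace.of_exists_mem_nhds_isClosed_subset fun x S hS => ?_
  obtain ⟨U, hUS, hUo, hxU⟩ := mem_nhds_iff.1 hS
  have hUi := (isOpen_iff U).1 hUo
  rcases x with ⟨n, s⟩ | ⟨n, s, t⟩ | _ | _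
  · refine ⟨{y : Y | y = v n s ∨ (∃ t ∈ {t | e n s t ∈ U}, y = e n s t) ∨
      ∃ r ∈ {r | e (n - 1) r s ∈ U}, y = e (n - 1) r s}, ?_, isClosed_star n s _ _, ?_⟩
    · refine IsOpen.mem_nhds ?_ (Or.inl rfl)
      rw [isOpen_iff]
      refine ⟨fun m q h => ?_, fun h => ?_, fun h => ?_⟩
      · have h1 : v m q = v n s := by
          rcases h with h | ⟨_, _, h⟩ | ⟨_, _, h⟩
          · exact h
          · exact absurd h (by simp)
          · exact absurd h (by simp)
        obtain ⟨rfl, rfl⟩ := Y.v.inj h1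
        obtain ⟨h2, h3⟩ := hUi.1 m q hxU
        refine ⟨h2.subset fun t ht htU => ht (Or.inr (Or.inl ⟨t, htU, rfl⟩)),
          h3.subset fun t ht htU => ht (Or.inr (Or.inr ⟨t, htU, rfl⟩))⟩
      · rcases h with h | ⟨_, _, h⟩ | ⟨_, _, h⟩ <;> exact absurd h (by simp)
      · rcases h with h | ⟨_, _, h⟩ | ⟨_, _, h⟩ <;> exact absurd h (by simp)
    · rintro y (rfl | ⟨t, ht, rfl⟩ | ⟨r, hr, rfl⟩)
      · exact hUS hxU
      · exact hUS ht
      · exact hUS hr
  · exact ⟨{e n s t}, (isOpen_edge n s t).mem_nhds rfl, isClosed_edge n s t,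
      singleton_subset_iff.2 (hUS hxU)⟩
  · obtain ⟨N, hN⟩ := hUi.2.1 hxU
    refine ⟨{y | up N N y}, ?_, isClosed_up N, ?_⟩
    · refine mem_of_superset ((isOpen_up (N + 1)).mem_nhds (show up (N + 1) (N + 1 - 1) pinf from
        trivial)) ?_
      intro y hy
      rcases y with ⟨n, s⟩ | ⟨n, s, t⟩ | _ | _
      · have : N + 1 ≤ n := hy
        change N ≤ n
        omega
      · have : N + 1 - 1 ≤ n := hy
        change N ≤ n
        omega
      · trivial
      · exact hy.elim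
    · intro y hy
      rcases y with ⟨n, s⟩ | ⟨n, s, t⟩ | _ | _
      · exact hUS ((hN n hy).1 s)
      · exact hUS ((hN n hy).2 s t)
      · exact hUS hxU
      · exact hy.elim
  · obtain ⟨N, hN⟩ := hUi.2.2 hxU
    refine ⟨{y | dn N (N - 1) y}, ?_, isClosed_dn N, ?_⟩
    · refine mem_of_superset ((isOpen_dn (N - 1)).mem_nhds (show dn (N - 1) (N - 1) ninf from
        trivial)) ?_
      intro y hy
      rcases y with ⟨n, s⟩ | ⟨n, s, t⟩ | _ | _
      · have : n ≤ N - 1 := hy
        change n ≤ N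
        omega
      · have : n ≤ N - 1 := hy
        change n ≤ N - 1
        omega
      · exact hy.elim
      · trivial
    · intro y hy
      rcases y with ⟨n, s⟩ | ⟨n, s, t⟩ | _ | _
      · exact hUS ((hN n hy).1 s)
      · have : n ≤ N - 1 := hy
        exact hUS ((hN n (by omega)).2 s t)
      · exact hy.elim
      · exact hUS hxU

instance : T3Space Y := inferInstance

/-- At a vertex, a continuous function takes the value of the vertex on all but countably many
edges going up. -/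
theorem countable_up {f : Y → ℝ} (hf : Continuous f) (n : ℤ) (s : ℝ) :
    {t | f (e n s t) ≠ f (v n s)}.Countable := by
  have h : {t | f (e n s t) ≠ f (v n s)} ⊆
      ⋃ k : ℕ, {t | e n s t ∉ f ⁻¹' Metric.ball (f (v n s)) (1 / ((k : ℝ) + 1))} := by
    intro t ht
    have hpos : 0 < dist (f (e n s t)) (f (v n s)) := dist_pos.2 ht
    obtain ⟨k, hk⟩ := exists_nat_one_div_lt hpos
    refine mem_iUnion.2 ⟨k, ?_⟩
    intro hmem
    have : dist (f (e n s t)) (f (v n s)) < 1 / ((k : ℝ) + 1) := hmem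
    linarith
  refine (countable_iUnion fun k => ?_).mono h
  have ho := (isOpen_iff _).1 ((Metric.isOpen_ball (x := f (v n s)) (ε := 1 / ((k : ℝ) + 1))).preimage hf)
  exact (ho.1 n s (Metric.mem_ball_self Nat.one_div_pos_of_nat)).1.countable

/-- Generic values propagate from one layer to the next. -/
theorem generic_step {f : Y → ℝ} (hf : Continuous f) (n : ℤ) (a : ℕ → ℝ)
    (ha : Function.Injective a) :
    ∃ C : Set ℝ, C.Countable ∧ ∀ t ∉ C, Tendsto (fun k => f (v n (a k))) atTop (𝓝 (f (v (n + 1) t))) := by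
  refine ⟨⋃ k, {t | f (e n (a k) t) ≠ f (v n (a k))},
    countable_iUnion fun k => countable_up hf n (a k), fun t ht => ?_⟩
  have heq : ∀ k, f (e n (a k) t) = f (v n (a k)) := by
    intro k
    by_contra hne
    exact ht (mem_iUnion.2 ⟨k, hne⟩)
  rw [Metric.tendsto_atTop']
  intro ε hε
  have ho := (isOpen_iff _).1 ((Metric.isOpen_ball (x := f (v (n + 1) t)) (ε := ε)).preimage hf)
  have hfin := (ho.1 (n + 1) t (Metric.mem_ball_self hε)).2
  have hfin2 : {k : ℕ | f (v n (a k)) ∉ Metric.ball (f (v (n + 1) t)) ε}.Finite := by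
    refine (hfin.preimage (ha.injOn (s := a ⁻¹' {r | e (n + 1 - 1) r t ∉
      f ⁻¹' Metric.ball (f (v (n + 1) t)) ε}))).subset ?_
    intro k hk hmem
    apply hk
    rw [← heq k]
    have : n + 1 - 1 = n := by omega
    rw [this] at hmem
    exact hmem
  obtain ⟨M, hM⟩ := hfin2.bddAbove
  refine ⟨M, fun k hk => ?_⟩
  by_contra hcon
  exact absurd (hM (show k ∈ {k : ℕ | f (v n (a k)) ∉ Metric.ball (f (v (n + 1) t)) ε} from hcon))
    (by omega)

theorem exists_generic {f : Y → ℝ} (hf : Continuous f) (n : ℤ) :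
    ∃ c : ℝ, ∃ C : Set ℝ, C.Countable ∧ ∀ t ∉ C, f (v n t) = c := by
  obtain ⟨C, hC, h⟩ := generic_step hf (n - 1) (fun k : ℕ => (k : ℝ)) Nat.cast_injective
  have hne : (Cᶜ).Nonempty := by
    by_contra hcon
    rw [not_nonempty_iff_eq_empty, compl_empty_iff] at hcon
    rw [hcon] at hC
    exact Set.not_countable_univ hC
  obtain ⟨t₀, ht₀⟩ := hne
  refine ⟨f (v n t₀), C, hC, fun t ht => ?_⟩
  have h1 := h t ht
  have h2 := h t₀ ht₀
  rw [sub_add_cancel] at h1 h2
  exact tendsto_nhds_unique h1 h2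

theorem generic_eq {f : Y → ℝ} (hf : Continuous f) (n : ℤ) {c : ℝ} {C : Set ℝ} (hC : C.Countable)
    (h : ∀ t ∉ C, f (v n t) = c) : ∃ C' : Set ℝ, C'.Countable ∧ ∀ t ∉ C', f (v (n + 1) t) = c := by
  have hinf : (Cᶜ).Infinite := by
    intro hfin
    have : (univ : Set ℝ).Countable := by
      rw [← union_compl_self C]
      exact hC.union hfin.countable
    exact Set.not_countable_univ this
  have : Infinite ↥(Cᶜ) := hinf.to_subtype
  set a : ℕ → ℝ := fun k => (Infinite.natEmbedding ↥(Cᶜ) k : ℝ) with ha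
  have hainj : Function.Injective a :=
    Subtype.val_injective.comp (Infinite.natEmbedding ↥(Cᶜ)).injective
  obtain ⟨C', hC', h'⟩ := generic_step hf n a hainj
  refine ⟨C', hC', fun t ht => ?_⟩
  have h1 := h' t ht
  have h2 : (fun k => f (v n (a k))) = fun _ => c := by
    funext k
    exact h _ (Infinite.natEmbedding ↥(Cᶜ) k).2
  rw [h2] at h1
  exact tendsto_nhds_unique h1 tendsto_const_nhds

theorem exists_of_countable {C : Set ℝ} (hC : C.Countable) : ∃ t, t ∉ C := by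
  by_contra hcon
  push Not at hcon
  have : C = univ := eq_univ_of_forall hcon
  rw [this] at hC
  exact Set.not_countable_univ hC

/-- A continuous real function takes the same value at the two ends. -/
theorem eq_ends {f : Y → ℝ} (hf : Continuous f) : f ninf = f pinf := by
  -- generic value in the layer `0`
  obtain ⟨c, C, hC, hc⟩ := exists_generic hf 0
  have hup : ∀ k : ℕ, ∃ C' : Set ℝ, C'.Countable ∧ ∀ t ∉ C', f (v (k : ℤ) t) = c := by
    intro k
    induction k with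
    | zero => exact ⟨C, hC, hc⟩
    | succ k ih =>
      obtain ⟨C', hC', h'⟩ := ih
      obtain ⟨C'', hC'', h''⟩ := generic_eq hf k hC' h'
      refine ⟨C'', hC'', fun t ht => ?_⟩
      have := h'' t ht
      push_cast
      exact this
  have hdn : ∀ k : ℕ, ∃ C' : Set ℝ, C'.Countable ∧ ∀ t ∉ C', f (v (-(k : ℤ)) t) = c := by
    intro k
    induction k with
    | zero => exact ⟨C, hC, by simpa using hc⟩
    | succ k ih =>
      obtain ⟨C', hC', h'⟩ := ih
      obtain ⟨c2, C2, hC2, hc2⟩ := exists_generic hf (-((k + 1 : ℕ) : ℤ))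
      obtain ⟨C3, hC3, hc3⟩ := generic_eq hf _ hC2 hc2
      obtain ⟨t, ht⟩ := exists_of_countable (hC'.union hC3)
      rw [mem_union, not_or] at ht
      have h1 := h' t ht.1
      have h2 := hc3 t ht.2
      have h3 : -((k + 1 : ℕ) : ℤ) + 1 = -(k : ℤ) := by push_cast; ring
      rw [h3] at h2
      have : c2 = c := h2.symm.trans h1
      subst this
      exact ⟨C2, hC2, hc2⟩
  have hp : f pinf = c := by
    by_contra hne
    have ho := (isOpen_iff _).1 ((isOpen_compl_singleton (x := c)).preimage hf)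
    obtain ⟨N, hN⟩ := ho.2.1 hne
    obtain ⟨C', hC', h'⟩ := hup N.toNat
    obtain ⟨t, ht⟩ := exists_of_countable hC'
    exact (hN (N.toNat : ℤ) (Int.self_le_toNat N)).1 t (h' t ht)
  have hn : f ninf = c := by
    by_contra hne
    have ho := (isOpen_iff _).1 ((isOpen_compl_singleton (x := c)).preimage hf)
    obtain ⟨N, hN⟩ := ho.2.2 hne
    obtain ⟨C', hC', h'⟩ := hdn (-N).toNat
    obtain ⟨t, ht⟩ := exists_of_countable hC'
    refine (hN (-((-N).toNat : ℤ)) ?_).1 t (h' t ht)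
    have := Int.self_le_toNat (-N)
    omega
  rw [hp, hn]

end Y

end Pool.Agent.MP_3eafcc_gt
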