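import Mathlib
import Pool.Agent.MP_3eafcc_gt.GraphSpace

set_option autoImplicit false

open Set Filter Topology

namespace Pool.Agent.MP_3eafcc_gt

/-- the points of `Y` other than the two ends -/
def Y0 : Type := {y : Y // y ≠ Y.pinf ∧ y ≠ Y.ninf}

/-- Points of the space on which every continuous real function is constant: a base point and
the finite words over `Y0`. -/
inductive Z : Type
  | base : Z
  | word : List Y0 → Z

namespace Z

open scoped Classical in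
/-- The copy of `Y` attached at the word `w`: its end `pinf` is the base point, its end `ninf` is
the word `w`. -/
noncomputable def inc (w : List Y0) (y : Y) : Z :=
  if h : y ≠ Y.pinf ∧ y ≠ Y.ninf then word (⟨y, h⟩ :: w)
  else if y = Y.pinf then base else word w

theorem inc_pinf (w : List Y0) : inc w Y.pinf = base := by simp [inc]

theorem inc_ninf (w : List Y0) : inc w Y.ninf = word w := by
  have : Y.ninf ≠ Y.pinf := by simp
  simp [inc]

theorem inc_of (w : List Y0) (y : Y0) : inc w y.1 = word (y :: w) := by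
  unfold inc
  rw [dif_pos y.2]
  rfl

theorem inc_cases (w : List Y0) (y : Y) : (y = Y.pinf ∧ inc w y = base) ∨
    (y = Y.ninf ∧ inc w y = word w) ∨ ∃ y0 : Y0, y = y0.1 ∧ inc w y = word (y0 :: w) := by
  by_cases h1 : y = Y.pinf
  · left; subst h1; exact ⟨rfl, inc_pinf w⟩
  · by_cases h2 : y = Y.ninf
    · right; left; subst h2; exact ⟨rfl, inc_ninf w⟩
    · right; right; exact ⟨⟨y, h1, h2⟩, rfl, inc_of w ⟨y, h1, h2⟩⟩

theorem inc_injective (w : List Y0) : Function.Injective (inc w) := by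
  intro y y' h
  rcases inc_cases w y with ⟨h1, h2⟩ | ⟨h1, h2⟩ | ⟨y0, h1, h2⟩ <;>
  rcases inc_cases w y' with ⟨h1', h2'⟩ | ⟨h1', h2'⟩ | ⟨y0', h1', h2'⟩
  · rw [h1, h1']
  · rw [h2, h2'] at h; exact absurd h (by simp)
  · rw [h2, h2'] at h; exact absurd h (by simp)
  · rw [h2, h2'] at h; exact absurd h (by simp)
  · rw [h1, h1']
  · rw [h2, h2'] at h
    have := congrArg List.length (Z.word.inj h)
    simp at this
  · rw [h2, h2'] at h; exact absurd h (by simp)
  · rw [h2, h2'] at h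
    have := congrArg List.length (Z.word.inj h)
    simp at this
  · rw [h2, h2'] at h
    have := (List.cons.inj (Z.word.inj h)).1
    rw [h1, h1', this]

instance : TopologicalSpace Z where
  IsOpen U := ∀ w, IsOpen (inc w ⁻¹' U)
  isOpen_univ := fun _ => isOpen_univ
  isOpen_inter := fun _ _ hA hB w => (hA w).inter (hB w)
  isOpen_sUnion := fun S hS w => by
    rw [preimage_sUnion]
    exact isOpen_biUnion fun A hA => hS A hA w

theorem isOpen_iff (U : Set Z) : IsOpen U ↔ ∀ w, IsOpen (inc w ⁻¹' U) := Iff.rfl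

theorem isClosed_iff (C : Set Z) : IsClosed C ↔ ∀ w, IsClosed (inc w ⁻¹' C) := by
  rw [← isOpen_compl_iff, isOpen_iff]
  refine forall_congr' fun w => ?_
  rw [← isOpen_compl_iff]
  rfl

theorem continuous_inc (w : List Y0) : Continuous (inc w) :=
  continuous_def.2 fun _ hU => hU w

theorem const_of_continuous {f : Z → ℝ} (hf : Continuous f) (z : Z) : f z = f base := by
  rcases z with _ | w
  · rfl
  · have := Y.eq_ends (hf.comp (continuous_inc w))
    simpa [inc_pinf, inc_ninf] using this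

instance : T1Space Z := by
  refine ⟨fun x => ?_⟩
  rw [isClosed_iff]
  intro w
  exact (subsingleton_singleton.preimage (inc_injective w)).isClosed

/-- Given finitely many points of `Y` with prescribed levels `0, 1, 2`, there is a function of
levels whose set of level `2` is open and whose set of level `≥ 1` is closed. -/
theorem exists_level (O : Set Y) (hO : IsOpen O) (F : Finset Y) (s : Y → ℕ)
    (hs : ∀ y ∈ F, 1 ≤ s y → y ∈ O) (hs2 : ∀ y, s y ≤ 2) :
    ∃ c : Y → ℕ, (∀ y ∈ F, c y = s y) ∧ (∀ y, c y ≤ 2) ∧ IsOpen {y | c y = 2} ∧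
      IsClosed {y | 1 ≤ c y} ∧ {y | 1 ≤ c y} ⊆ O := by
  classical
  -- closed neighbourhoods
  have hU : ∀ y : Y, ∃ U : Set Y, ((y ∈ F ∧ s y = 2) → IsOpen U ∧ y ∈ U ∧ closure U ⊆ O ∧
      ∀ z ∈ F, z ≠ y → z ∉ closure U) := by
    intro y
    by_cases h : y ∈ F ∧ s y = 2
    · have hopen : IsOpen (O ∩ (((F.erase y : Finset Y) : Set Y))ᶜ) :=
        hO.inter ((F.erase y).finite_toSet.isClosed.isOpen_compl)
      have hmem : y ∈ O ∩ (((F.erase y : Finset Y) : Set Y))ᶜ := by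
        refine ⟨hs y h.1 (by omega), by simp⟩
      obtain ⟨V, hV, hyV, hVsub⟩ := (hopen.mem_nhds hmem |> exists_mem_nhds_isClosed_subset) |>
        fun ⟨t, ht1, ht2, ht3⟩ => (show ∃ V : Set Y, IsOpen V ∧ y ∈ V ∧ closure V ⊆
          O ∩ (((F.erase y : Finset Y) : Set Y))ᶜ from
          ⟨interior t, isOpen_interior, mem_interior_iff_mem_nhds.2 ht1,
            (closure_minimal interior_subset ht2).trans ht3⟩)
      refine ⟨V, fun _ => ⟨hV, hyV, hVsub.trans inter_subset_left, fun z hz hzy hzc => ?_⟩⟩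
      exact (hVsub hzc).2 (by simp [hz, hzy])
    · exact ⟨∅, fun h' => absurd h' h⟩
  choose U hU using hU
  set A : Set Y := ⋃ y ∈ {y ∈ F | s y = 2}, U y with hA
  set B : Set Y := (⋃ y ∈ {y ∈ F | s y = 2}, closure (U y)) ∪ {y | y ∈ F ∧ s y = 1} with hB
  have hAo : IsOpen A := by
    refine isOpen_biUnion fun y hy => ?_
    exact (hU y (by simpa using hy)).1
  have hBc : IsClosed B := by
    refine IsClosed.union ?_ ?_
    · exact Set.Finite.isClosed_biUnion (Finset.finite_toSet _) fun y _ => isClosed_closure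
    · exact (F.finite_toSet.subset fun y hy => hy.1).isClosed
  have hAB : A ⊆ B := by
    intro x hx
    obtain ⟨y, hy, hxy⟩ := mem_iUnion₂.1 hx
    exact Or.inl (mem_iUnion₂.2 ⟨y, hy, subset_closure hxy⟩)
  have hBO : B ⊆ O := by
    rintro x (hx | hx)
    · obtain ⟨y, hy, hxy⟩ := mem_iUnion₂.1 hx
      rw [Finset.mem_filter] at hy
      exact (hU y hy).2.2.1 hxy
    · exact hs x hx.1 (by rw [hx.2])
  refine ⟨fun y => if y ∈ A then 2 else if y ∈ B then 1 else 0, ?_, ?_, ?_, ?_, ?_⟩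
  · intro y hy
    by_cases h2 : s y = 2
    · have : y ∈ A := mem_iUnion₂.2 ⟨y, Finset.mem_filter.2 ⟨hy, h2⟩, (hU y ⟨hy, h2⟩).2.1⟩
      simp [this, h2]
    · have hyA' : ∀ z ∈ {z ∈ F | s z = 2}, y ∉ closure (U z) := by
        intro z hz hyz
        rw [Finset.mem_filter] at hz
        have hne : y ≠ z := by rintro rfl; exact h2 hz.2
        exact (hU z hz).2.2.2 y hy hne hyz
      have hyA : y ∉ A := by
        intro h
        obtain ⟨z, hz, hyz⟩ := mem_iUnion₂.1 h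
        exact hyA' z hz (subset_closure hyz)
      by_cases h1 : s y = 1
      · have : y ∈ B := Or.inr ⟨hy, h1⟩
        simp [hyA, this, h1]
      · have h0 : s y = 0 := by have := hs2 y; omega
        have : y ∉ B := by
          rintro (h | h)
          · obtain ⟨z, hz, hyz⟩ := mem_iUnion₂.1 h
            exact hyA' z hz hyz
          · exact h1 h.2
        simp [hyA, this, h0]
  · intro y
    by_cases h : y ∈ A
    · simp [h]
    · by_cases h' : y ∈ B <;> simp [h, h']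
  · convert hAo using 1
    ext y
    by_cases h : y ∈ A
    · simp [h]
    · by_cases h' : y ∈ B <;> simp [h, h']
  · convert hBc using 1
    ext y
    by_cases h : y ∈ A
    · simp [h, hAB h]
    · by_cases h' : y ∈ B <;> simp [h, h']
  · refine Subset.trans ?_ hBO
    intro y hy
    by_contra h'
    have h : y ∉ A := fun h => h' (hAB h)
    simp [h, h'] at hy

/-- The data of levels on the whole of `Z` built by recursion. -/
noncomputable def lev (Ch : List Y0 → ℕ → ℕ → Y → ℕ) (s0 s1 : ℕ) : List Y0 → ℕ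
  | [] => s1
  | y :: w => Ch w s0 (lev Ch s0 s1 w) y.1

noncomputable def Lev (Ch : List Y0 → ℕ → ℕ → Y → ℕ) (s0 s1 : ℕ) : Z → ℕ
  | base => s0
  | word w => lev Ch s0 s1 w

theorem Lev_inc {Ch : List Y0 → ℕ → ℕ → Y → ℕ} {s0 s1 : ℕ} (w : List Y0)
    (h1 : Ch w s0 (lev Ch s0 s1 w) Y.pinf = s0)
    (h2 : Ch w s0 (lev Ch s0 s1 w) Y.ninf = lev Ch s0 s1 w) (y : Y) :
    Lev Ch s0 s1 (inc w y) = Ch w s0 (lev Ch s0 s1 w) y := by
  rcases inc_cases w y with ⟨h, h'⟩ | ⟨h, h'⟩ | ⟨y0, h, h'⟩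
  · rw [h', h, h1]; rfl
  · rw [h', h, h2]; rfl
  · rw [h', h]; rfl

/-- Admissible choice functions. -/
def Good (O : Set Z) (Ch : List Y0 → ℕ → ℕ → Y → ℕ) : Prop :=
  ∀ w a b, a ≤ 2 → b ≤ 2 → (1 ≤ a → base ∈ O) → (1 ≤ b → word w ∈ O) →
    Ch w a b Y.pinf = a ∧ Ch w a b Y.ninf = b ∧ (∀ y, Ch w a b y ≤ 2) ∧
    IsOpen {y | Ch w a b y = 2} ∧ IsClosed {y | 1 ≤ Ch w a b y} ∧
    {y | 1 ≤ Ch w a b y} ⊆ inc w ⁻¹' O

theorem good_lev {O : Set Z} {Ch : List Y0 → ℕ → ℕ → Y → ℕ} (hG : Good O Ch) {s0 s1 : ℕ}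
    (h0 : s0 ≤ 2) (h1 : s1 ≤ 2) (h0O : 1 ≤ s0 → base ∈ O) (h1O : 1 ≤ s1 → word [] ∈ O)
    (w : List Y0) : lev Ch s0 s1 w ≤ 2 ∧ (1 ≤ lev Ch s0 s1 w → word w ∈ O) := by
  induction w with
  | nil => exact ⟨h1, h1O⟩
  | cons y w ih =>
    obtain ⟨g1, g2, g3, g4, g5, g6⟩ := hG w s0 (lev Ch s0 s1 w) h0 ih.1 h0O ih.2
    refine ⟨g3 y.1, fun h => ?_⟩
    have := g6 (show y.1 ∈ {y | 1 ≤ Ch w s0 (lev Ch s0 s1 w) y} from h)
    rwa [mem_preimage, inc_of] at this

theorem good_Lev {O : Set Z} {Ch : List Y0 → ℕ → ℕ → Y → ℕ} (hG : Good O Ch) {s0 s1 : ℕ}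
    (h0 : s0 ≤ 2) (h1 : s1 ≤ 2) (h0O : 1 ≤ s0 → base ∈ O) (h1O : 1 ≤ s1 → word [] ∈ O) :
    IsOpen {z | Lev Ch s0 s1 z = 2} ∧ IsClosed {z | 1 ≤ Lev Ch s0 s1 z} ∧
      {z | 1 ≤ Lev Ch s0 s1 z} ⊆ O := by
  have hL := good_lev hG h0 h1 h0O h1O
  have key : ∀ w y, Lev Ch s0 s1 (inc w y) = Ch w s0 (lev Ch s0 s1 w) y := by
    intro w y
    obtain ⟨g1, g2, g3, g4, g5, g6⟩ := hG w s0 (lev Ch s0 s1 w) h0 (hL w).1 h0O (hL w).2
    exact Lev_inc w g1 g2 y
  refine ⟨?_, ?_, ?_⟩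
  · rw [isOpen_iff]
    intro w
    obtain ⟨g1, g2, g3, g4, g5, g6⟩ := hG w s0 (lev Ch s0 s1 w) h0 (hL w).1 h0O (hL w).2
    convert g4 using 1
    ext y
    simp [key]
  · rw [isClosed_iff]
    intro w
    obtain ⟨g1, g2, g3, g4, g5, g6⟩ := hG w s0 (lev Ch s0 s1 w) h0 (hL w).1 h0O (hL w).2
    convert g5 using 1
    ext y
    simp [key]
  · intro z hz
    rcases z with _ | w
    · exact h0O hz
    · exact (hL w).2 hz

open scoped Classical in
/-- generic choice -/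
theorem exists_choice {O : Set Z} (hO : IsOpen O) (w : List Y0) (a b : ℕ) :
    ∃ c : Y → ℕ, (a = 0 → b = 0 → c = 0) ∧
      (a ≤ 2 → b ≤ 2 → (1 ≤ a → base ∈ O) → (1 ≤ b → word w ∈ O) →
      c Y.pinf = a ∧ c Y.ninf = b ∧ (∀ y, c y ≤ 2) ∧ IsOpen {y | c y = 2} ∧
      IsClosed {y | 1 ≤ c y} ∧ {y | 1 ≤ c y} ⊆ inc w ⁻¹' O) := by
  by_cases h0 : a = 0 ∧ b = 0
  · obtain ⟨rfl, rfl⟩ := h0
    exact ⟨0, fun _ _ => rfl, fun _ _ _ _ => ⟨rfl, rfl, fun _ => by simp, by simp, by simp,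
      by simp⟩⟩
  · by_cases h : a ≤ 2 ∧ b ≤ 2 ∧ (1 ≤ a → base ∈ O) ∧ (1 ≤ b → word w ∈ O)
    · obtain ⟨ha, hb, haO, hbO⟩ := h
      obtain ⟨c, h1, h2, h3, h4, h5⟩ := exists_level (inc w ⁻¹' O) (hO w) {Y.pinf, Y.ninf}
        (fun y => if y = Y.pinf then a else if y = Y.ninf then b else 0) (by
          intro y hy h
          simp only [Finset.mem_insert, Finset.mem_singleton] at hy
          rcases hy with rfl | rfl
          · rw [mem_preimage, inc_pinf]
            exact haO (by simpa using h)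
          · rw [mem_preimage, inc_ninf]
            exact hbO (by simpa using h)) (by
          intro y
          split_ifs <;> omega)
      have e1 := h1 Y.pinf (by simp)
      have e2 := h1 Y.ninf (by simp)
      simp at e1 e2
      exact ⟨c, fun ha' hb' => absurd ⟨ha', hb'⟩ h0, fun _ _ _ _ => ⟨e1, e2, h2, h3, h4, h5⟩⟩
    · exact ⟨0, fun _ _ => rfl, fun h1 h2 h3 h4 => absurd ⟨h1, h2, h3, h4⟩ h⟩

/-- the generic choice function -/
noncomputable def ChG {O : Set Z} (hO : IsOpen O) (w : List Y0) (a b : ℕ) : Y → ℕ :=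
  (exists_choice hO w a b).choose

theorem ChG_zero {O : Set Z} (hO : IsOpen O) (w : List Y0) : ChG hO w 0 0 = 0 :=
  (exists_choice hO w 0 0).choose_spec.1 rfl rfl

theorem good_ChG {O : Set Z} (hO : IsOpen O) : Good O (ChG hO) := by
  intro w a b ha hb haO hbO
  exact (exists_choice hO w a b).choose_spec.2 ha hb haO hbO

open scoped Classical in
/-- choice function modified at one word -/
noncomputable def ChS {O : Set Z} (hO : IsOpen O) (w0 : List Y0) (c0 : Y → ℕ) (w : List Y0)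
    (a b : ℕ) : Y → ℕ :=
  if w = w0 ∧ a = 0 ∧ b = 0 then c0 else ChG hO w a b

theorem good_ChS {O : Set Z} (hO : IsOpen O) (w0 : List Y0) (c0 : Y → ℕ)
    (h1 : c0 Y.pinf = 0) (h2 : c0 Y.ninf = 0) (h3 : ∀ y, c0 y ≤ 2) (h4 : IsOpen {y | c0 y = 2})
    (h5 : IsClosed {y | 1 ≤ c0 y}) (h6 : {y | 1 ≤ c0 y} ⊆ inc w0 ⁻¹' O) :
    Good O (ChS hO w0 c0) := by
  intro w a b ha hb haO hbO
  unfold ChS
  split_ifs with h
  · obtain ⟨rfl, rfl, rfl⟩ := h
    exact ⟨h1, h2, h3, h4, h5, h6⟩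
  · exact good_ChG hO w a b ha hb haO hbO

theorem lev_ChS_zero {O : Set Z} (hO : IsOpen O) (w0 : List Y0) (c0 : Y → ℕ) (w : List Y0)
    (hw : w.length ≤ w0.length) : lev (ChS hO w0 c0) 0 0 w = 0 := by
  induction w with
  | nil => rfl
  | cons y w ih =>
    have hlt : w.length < w0.length := by simpa using hw
    have hne : ¬ (w = w0 ∧ (0 : ℕ) = 0 ∧ (0 : ℕ) = 0) := by
      rintro ⟨rfl, _, _⟩
      exact lt_irrefl _ hlt
    change ChS hO w0 c0 w 0 (lev (ChS hO w0 c0) 0 0 w) y.1 = 0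
    rw [ih hlt.le]
    unfold ChS
    rw [if_neg hne, ChG_zero]
    rfl

instance : RegularSpace Z := by
  classical
  refine RegularSpace.of_exists_mem_nhds_isClosed_subset fun x S hS => ?_
  obtain ⟨O, hOS, hO, hxO⟩ := mem_nhds_iff.1 hS
  -- it suffices to find a good choice function with level 2 at x
  suffices h : ∃ (Ch : List Y0 → ℕ → ℕ → Y → ℕ) (s0 s1 : ℕ), Good O Ch ∧ s0 ≤ 2 ∧ s1 ≤ 2 ∧
      (1 ≤ s0 → base ∈ O) ∧ (1 ≤ s1 → word [] ∈ O) ∧ Lev Ch s0 s1 x = 2 by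
    obtain ⟨Ch, s0, s1, hG, h0, h1, h0O, h1O, hx⟩ := h
    obtain ⟨k1, k2, k3⟩ := good_Lev hG h0 h1 h0O h1O
    refine ⟨{z | 1 ≤ Lev Ch s0 s1 z}, ?_, k2, k3.trans hOS⟩
    refine mem_of_superset (k1.mem_nhds hx) ?_
    intro z hz
    have : Lev Ch s0 s1 z = 2 := hz
    change 1 ≤ Lev Ch s0 s1 z
    omega
  rcases x with _ | w
  · exact ⟨ChG hO, 2, 0, good_ChG hO, le_rfl, by omega, fun _ => hxO, by omega, rfl⟩
  · rcases w with _ | ⟨y0, w0⟩
    · exact ⟨ChG hO, 0, 2, good_ChG hO, by omega, le_rfl, by omega, fun _ => hxO, rfl⟩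
    · have hy0 : y0.1 ∈ inc w0 ⁻¹' O := by
        rw [mem_preimage, inc_of]; exact hxO
      obtain ⟨c0, h1, h2, h3, h4, h5⟩ := exists_level (inc w0 ⁻¹' O) (hO w0)
        {Y.pinf, Y.ninf, y0.1} (fun y => if y = y0.1 then 2 else 0) (by
          intro y _ h
          by_cases hy : y = y0.1
          · rw [hy]; exact hy0
          · simp [hy] at h) (by intro y; split_ifs <;> omega)
      have e1 := h1 Y.pinf (by simp)
      have e2 := h1 Y.ninf (by simp)
      have e3 := h1 y0.1 (by simp)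
      have n1 : Y.pinf ≠ y0.1 := fun h => y0.2.1 h.symm
      have n2 : Y.ninf ≠ y0.1 := fun h => y0.2.2 h.symm
      simp only [n1, n2, if_false, if_true] at e1 e2 e3
      refine ⟨ChS hO w0 c0, 0, 0, good_ChS hO w0 c0 e1 e2 h2 h3 h4 h5, by omega, by omega,
        by omega, by omega, ?_⟩
      change ChS hO w0 c0 w0 0 (lev (ChS hO w0 c0) 0 0 w0) y0.1 = 2
      rw [lev_ChS_zero hO w0 c0 w0 le_rfl]
      unfold ChS
      simp [e3]

instance : T3Space Z := inferInstance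

theorem not_subsingleton : word [] ≠ base := by simp

end Z

end Pool.Agent.MP_3eafcc_gt
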